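import Pool.Agent.helper35.FGN.Spec

/-!
# Project fgn (MP_a2a22c_al), rows ACY and POL: the graph is a forest
-/

set_option autoImplicit false

namespace Pool.Agent.FGN

open Matrix Pool.Agent.H48SL Pool.Agent.UG

variable {n : ℕ}

/-- primitive vectors which are not independent generate the same group -/
theorem ACY_ind (v w x y : Fin n → ℤ) (hx : x ⬝ᵥ v = 1) (hy : y ⬝ᵥ w = 1) (h : ¬ Indep v w) :
    {u : Fin n → ℤ | ∃ a : ℤ, u = a • v} = {u | ∃ a : ℤ, u = a • w} := by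
  unfold Indep at h
  push Not at h
  obtain ⟨a, b, h0, h1⟩ := h
  have e1 : a + b * (x ⬝ᵥ w) = 0 := by
    have := congrArg (fun u => x ⬝ᵥ u) h0
    simp only [dotProduct_add, dotProduct_smul, dotProduct_zero, hx, smul_eq_mul, mul_one] at this
    exact this
  have e2 : a * (y ⬝ᵥ v) + b = 0 := by
    have := congrArg (fun u => y ⬝ᵥ u) h0
    simp only [dotProduct_add, dotProduct_smul, dotProduct_zero, hy, smul_eq_mul, mul_one] at this
    exact this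
  have ha : a ≠ 0 := by
    intro ha
    rw [ha, zero_mul, zero_add] at e2
    exact h1 ha e2
  have hb : b ≠ 0 := by
    intro hb
    rw [hb, zero_mul, add_zero] at e1
    exact ha e1
  have hw : w = (x ⬝ᵥ w) • v := by
    have h2 : b • w = b • ((x ⬝ᵥ w) • v) := by
      rw [smul_smul]
      have : b * (x ⬝ᵥ w) = -a := by linarith
      rw [this, neg_smul]
      exact eq_neg_of_add_eq_zero_right h0
    exact smul_right_injective _ hb h2
  have hv : v = (y ⬝ᵥ v) • w := by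
    have h2 : a • v = a • ((y ⬝ᵥ v) • w) := by
      rw [smul_smul]
      have : a * (y ⬝ᵥ v) = -b := by linarith
      rw [this, neg_smul]
      exact eq_neg_of_add_eq_zero_left h0
    exact smul_right_injective _ ha h2
  ext u
  constructor
  · rintro ⟨c, rfl⟩
    refine ⟨c * (y ⬝ᵥ v), ?_⟩
    rw [mul_smul, ← hv]
  · rintro ⟨c, rfl⟩
    refine ⟨c * (x ⬝ᵥ w), ?_⟩
    rw [mul_smul, ← hw]

open Classical in
/-- a primitive generator -/
noncomputable def ACY_r (A : Set (Fin n → ℤ)) : Fin n → ℤ :=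
  if h : ∃ v : Fin n → ℤ, (∃ x : Fin n → ℤ, x ⬝ᵥ v = 1) ∧ A = {w | ∃ a : ℤ, w = a • v} then h.choose else 0

theorem ACY_r_spec (A : Set (Fin n → ℤ))
    (h : ∃ v : Fin n → ℤ, (∃ x : Fin n → ℤ, x ⬝ᵥ v = 1) ∧ A = {w | ∃ a : ℤ, w = a • v}) :
    (∃ x : Fin n → ℤ, x ⬝ᵥ ACY_r A = 1) ∧ A = {w | ∃ a : ℤ, w = a • ACY_r A} := by
  unfold ACY_r
  rw [dif_pos h]
  exact h.choose_spec

theorem ACY_symm (v w : Fin n → ℤ) (h : Indep v w) : Indep w v := by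
  intro a b hab
  have h1 := h b a (by rw [add_comm]; exact hab)
  exact ⟨h1.2, h1.1⟩

theorem POL (hSTR : STR_stmt) (hADJ : ADJ_stmt) (hDEGL : DEGL_stmt) (hDEGR : DEGR_stmt) (hCYC : CYC_stmt) :
    POL_stmt := by
  intro n hn H hZ u hfin hU hL hR
  by_contra hfi
  have hV : ∀ i, (∃ x : Fin n → ℤ, x ⬝ᵥ ACY_r (ImV (u i)) = 1) ∧
      ImV (u i) = {w | ∃ a : ℤ, w = a • ACY_r (ImV (u i))} := by
    intro i
    obtain ⟨v, f, x, y, w, g, hx, hy, -, -, -, -, -, h1, h2, -, -⟩ := hSTR n (u i) (hU i).2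
    exact ACY_r_spec _ ⟨v, ⟨x, hx⟩, Set.ext h1⟩
  have hW : ∀ i, (∃ x : Fin n → ℤ, x ⬝ᵥ ACY_r (ImR (u i)) = 1) ∧
      ImR (u i) = {w | ∃ a : ℤ, w = a • ACY_r (ImR (u i))} := by
    intro i
    obtain ⟨v, f, x, y, w, g, hx, hy, -, -, -, -, -, h1, h2, -, -⟩ := hSTR n (u i) (hU i).2
    exact ACY_r_spec _ ⟨f, ⟨y, hy⟩, Set.ext h2⟩
  have hVm : ∀ i, ACY_r (ImV (u i)) ∈ ImV (u i) := by
    intro i
    rw [(hV i).2]
    refine ⟨1, ?_⟩
    rw [← (hV i).2, one_smul]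
  have hWm : ∀ i, ACY_r (ImR (u i)) ∈ ImR (u i) := by
    intro i
    rw [(hW i).2]
    refine ⟨1, ?_⟩
    rw [← (hW i).2, one_smul]
  -- rows fixed by `u` kill the image, the row image kills the fixed columns
  have kR : ∀ i, ∀ h ∈ FixR (u i), ∀ z ∈ ImV (u i), h ⬝ᵥ z = 0 := by
    intro i h hh z hz
    obtain ⟨v, f, x, y, w, g, hx, hy, -, -, -, -, -, h1, h2, h3, h4⟩ := hSTR n (u i) (hU i).2
    obtain ⟨a, rfl⟩ := (h1 z).1 hz
    rw [dotProduct_smul, ((h4 h).1 hh).1, smul_zero]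
  have kV : ∀ i, ∀ z ∈ FixV (u i), ∀ q ∈ ImR (u i), q ⬝ᵥ z = 0 := by
    intro i z hz q hq
    obtain ⟨v, f, x, y, w, g, hx, hy, -, -, -, -, -, h1, h2, h3, h4⟩ := hSTR n (u i) (hU i).2
    obtain ⟨a, rfl⟩ := (h2 q).1 hq
    rw [smul_dotProduct, ((h3 z).1 hz).1, smul_zero]
  have hS1 : ∀ i, FixV (u (2 * i)) = FixV (u (2 * i + 1)) := fun i => (hL i).1.1
  have hS2 : ∀ i, ImV (u (2 * i)) = ImV (u (2 * i + 1)) := fun i => (hL i).1.2
  have hT1 : ∀ i, FixR (u (2 * i + 1)) = FixR (u (2 * i + 2)) := fun i => (hR i).1.1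
  have hT2 : ∀ i, ImR (u (2 * i + 1)) = ImR (u (2 * i + 2)) := fun i => (hR i).1.2
  have hP : ∀ i, Indep (ACY_r (ImV (u (2 * i)))) (ACY_r (ImV (u (2 * (i + 1))))) := by
    intro i
    by_contra hcon
    obtain ⟨x, hx⟩ := (hV (2 * i)).1
    obtain ⟨y, hy⟩ := (hV (2 * (i + 1))).1
    have h1 := ACY_ind _ _ x y hx hy hcon
    rw [← (hV (2 * i)).2, ← (hV (2 * (i + 1))).2] at h1
    have h2 : ImV (u (2 * i + 1)) = ImV (u (2 * i + 2)) := by
      rw [← hS2 i, h1]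
      rfl
    refine hfi (hDEGR n hn H hZ _ (hU (2 * i + 1)).1 _ (hU (2 * i + 2)).1 (hU _).2 (hU _).2 (hR i).1 h2 ?_)
    intro h3
    exact (hR i).2 ⟨h3, h2⟩
  have hQ : ∀ i, Indep (ACY_r (ImR (u (2 * i)))) (ACY_r (ImR (u (2 * (i + 1))))) := by
    intro i
    by_contra hcon
    obtain ⟨x, hx⟩ := (hW (2 * i)).1
    obtain ⟨y, hy⟩ := (hW (2 * (i + 1))).1
    have h1 := ACY_ind _ _ x y hx hy hcon
    rw [← (hW (2 * i)).2, ← (hW (2 * (i + 1))).2] at h1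
    have h2 : ImR (u (2 * i)) = ImR (u (2 * i + 1)) := by
      rw [hT2 i, h1]
      rfl
    refine hfi (hDEGL n hn H hZ _ (hU (2 * i)).1 _ (hU (2 * i + 1)).1 (hU _).2 (hU _).2 (hL i).1 h2 ?_)
    intro h3
    exact (hL i).2 ⟨h3, h2⟩
  have hA : ∀ i, _ := fun i => hADJ n (u (2 * i + 1)) (ACY_r (ImV (u (2 * i)))) (ACY_r (ImV (u (2 * (i + 1)))))
    (ACY_r (ImR (u (2 * i)))) (ACY_r (ImR (u (2 * (i + 1))))) (hU _).2
    (by rw [← hS2 i]; exact hVm _)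
    (by rw [hT2 i]; exact hWm (2 * i + 2))
    (by
      intro h hh
      rw [hT1 i] at hh
      exact kR (2 * i + 2) h hh _ (hVm (2 * i + 2)))
    (by
      intro x hx
      rw [← hS1 i] at hx
      exact kV (2 * i) x hx _ (hWm _))
    (hP i) (hQ i)
  have hB : ∀ i, _ := fun i => hADJ n (u (2 * i + 2)) (ACY_r (ImV (u (2 * (i + 1))))) (ACY_r (ImV (u (2 * i))))
    (ACY_r (ImR (u (2 * (i + 2))))) (ACY_r (ImR (u (2 * (i + 1))))) (hU _).2
    (hVm (2 * i + 2))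
    (hWm (2 * i + 2))
    (by
      intro h hh
      rw [← hT1 i] at hh
      refine kR (2 * i + 1) h hh _ ?_
      rw [← hS2 i]
      exact hVm _)
    (by
      intro x hx
      have h1 : x ∈ FixV (u (2 * (i + 1) + 1)) := by
        rw [← hS1 (i + 1)]
        exact hx
      refine kV (2 * (i + 1) + 1) x h1 _ ?_
      rw [hT2 (i + 1)]
      exact hWm (2 * (i + 1) + 2))
    (ACY_symm _ _ (hP i)) (ACY_symm _ _ (hQ (i + 1)))
  refine hfi (hCYC n hn H hZ (fun i => ACY_r (ImV (u (2 * i)))) (fun i => ACY_r (ImR (u (2 * i))))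
    ?_ ?_ hP hQ (fun i => (hA i).2.1) (fun i => (hA i).2.2.1) (fun i => (hA i).1) (fun i => (hB i).1)
    (fun i => ⟨u (2 * i + 1), (hU _).1, (hA i).2.2.2.2⟩) ?_)
  · refine (hfin.image fun x => ACY_r (ImV x)).subset ?_
    rintro _ ⟨i, rfl⟩
    exact ⟨u (2 * i), ⟨2 * i, rfl⟩, rfl⟩
  · refine (hfin.image fun x => ACY_r (ImR x)).subset ?_
    rintro _ ⟨i, rfl⟩
    exact ⟨u (2 * i), ⟨2 * i, rfl⟩, rfl⟩
  · intro i
    obtain ⟨a, c, e, ha, hc, h⟩ := (hB i).2.2.2.2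
    refine ⟨u (2 * i + 2), (hU _).1, c, a, e, hc, ha, ?_⟩
    rw [h]
    show 1 + a • _ + c • _ + e • _ = 1 + c • _ + a • _ + e • _
    rw [add_right_comm (1 : MQ n)]

theorem ACY (hSTR : STR_stmt) (hADJ : ADJ_stmt) (hDEGL : DEGL_stmt) (hDEGR : DEGR_stmt)
    (hWLK : Pool.Agent.FO.WLK_stmt) (hCYC : CYC_stmt) : ACY_stmt := by
  intro n hn H hZ hfin E U hU hinj c hc1 hc2
  by_contra hc
  obtain ⟨e, he, hS, hT⟩ := hWLK E (Set (Fin n → ℤ) × Set (Fin n → ℤ)) (Set (Fin n → ℤ) × Set (Fin n → ℤ))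
    (fun e => (FixV (U e), ImV (U e))) (fun e => (FixR (U e), ImR (U e))) c hc hc1 hc2
  refine hfin (POL hSTR hADJ hDEGL hDEGR hCYC n hn H hZ (fun i => U (e i)) ?_ (fun i => hU (e i)) ?_ ?_)
  · refine (he.image U).subset ?_
    rintro _ ⟨i, rfl⟩
    exact ⟨e i, ⟨i, rfl⟩, rfl⟩
  · intro i
    have h1 := Prod.mk.inj (hS i).1
    have h2 : LeftEq (U (e (2 * i))) (U (e (2 * i + 1))) := ⟨h1.1.symm, h1.2.symm⟩
    refine ⟨h2, fun h3 => (hS i).2 ?_⟩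
    exact (hinj _ _ h2 h3).symm
  · intro i
    have h1 := Prod.mk.inj (hT i).1
    have h2 : RightEq (U (e (2 * i + 1))) (U (e (2 * i + 2))) := ⟨h1.1.symm, h1.2.symm⟩
    refine ⟨h2, fun h3 => (hT i).2 ?_⟩
    exact (hinj _ _ h3 h2).symm

end Pool.Agent.FGN
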